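import Pool.Agent.Lib_helper68.GL2.Defs

/-!
# Weight aspect: critical zeros of almost all level one eigenforms of each weight. Definitions.
-/

namespace Pool.Agent.WA

open Complex MeasureTheory Filter Topology UpperHalfPlane
open scoped MatrixGroups ENNReal
open Pool.Agent.GL2 (qs HData am dens hatw Ep Mol xt FD IsCompletedL oddZ)

/-- The `q`-series `∑ b(n) e(n z)` with complex coefficients. -/
noncomputable def qc (b : ℕ → ℂ) (z : ℂ) : ℂ :=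
  ∑' n : ℕ, b n * cexp (2 * Real.pi * Complex.I * n * z)

/-- What is used about a cusp form of level 1 and weight `k` with (complex) coefficients `b`. -/
structure CForm (k : ℕ) (b : ℕ → ℂ) : Prop where
  zero : b 0 = 0
  growth : ∃ C : ℝ, ∀ n : ℕ, ‖b n‖ ≤ C * (n : ℝ) ^ ((k : ℝ) / 2)
  bound : ∃ C : ℝ, ∀ z : ℂ, 0 < z.im → ‖qc b z‖ ≤ C * z.im ^ (-(k : ℝ) / 2)
  slash : ∀ α β γ δ : ℤ, α * δ - β * γ = 1 → ∀ z : ℂ, 0 < z.im →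
    qc b ((α * z + β) / (γ * z + δ)) = (γ * z + δ) ^ k * qc b z

/-- the square of the Petersson norm -/
noncomputable def pn (k : ℕ) (b : ℕ → ℂ) : ℝ := ∫ z in FD, ‖qc b z‖ ^ 2 * z.im ^ k / z.im ^ 2

/-- the density `f(β + i e^u) e^{ku/2}` along the vertical geodesic with abscissa `β` -/
noncomputable def geo (k : ℕ) (b : ℕ → ℂ) (β u : ℝ) : ℂ :=
  qc b (β + (Real.exp u : ℝ) * Complex.I) * (Real.exp (k * u / 2) : ℝ)

/-- the functional `∑_j ∫ Ψ_j(u) f(β_j + i e^u) e^{ku/2} du` -/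
noncomputable def Lf {J : Type} [Fintype J] (k : ℕ) (β : J → ℝ) (Ψ : J → ℝ → ℂ) (b : ℕ → ℂ) : ℂ :=
  ∑ j, ∫ u : ℝ, Ψ j u * geo k b (β j) u

/-- `cosh²(d(z,w)/2)` -/
noncomputable def ch (z w : ℍ) : ℝ := ‖(z : ℂ) - starRingEnd ℂ (w : ℂ)‖ ^ 2 / (4 * z.im * w.im)

/-- the reproducing kernel function `e_z(w) = (2i √y)^k / (w - z̄)^k` -/
noncomputable def ez (k : ℕ) (z : ℍ) (w : ℂ) : ℂ :=
  (2 * Complex.I) ^ k * ((z.im ^ ((k : ℝ) / 2) : ℝ) : ℂ) / (w - starRingEnd ℂ (z : ℂ)) ^ k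

/-- `F(w) v^{k/2}` on the upper half plane -/
noncomputable def phf (k : ℕ) (F : ℂ → ℂ) (w : ℍ) : ℂ := F w * ((w.im ^ ((k : ℝ) / 2) : ℝ) : ℂ)

/-- `c w + d` -/
noncomputable def jd (g : SL(2, ℤ)) (w : ℍ) : ℂ := ((g 1 0 : ℤ) : ℂ) * (w : ℂ) + ((g 1 1 : ℤ) : ℂ)

/-- the unimodular automorphy factor `((c w + d) / |c w + d|)^k` -/
noncomputable def jk (k : ℕ) (g : SL(2, ℤ)) (w : ℍ) : ℂ := (jd g w / (‖jd g w‖ : ℂ)) ^ k

/-- the point `β + i e^u` of the upper half plane -/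
noncomputable def vz (β u : ℝ) : ℍ := ⟨⟨β, Real.exp u⟩, Real.exp_pos u⟩

/-- bounded measurable weights with support in `[-V, V]` -/
structure PsiB {J : Type} (Ψ : J → ℝ → ℂ) (M V : ℝ) : Prop where
  meas : ∀ j, Measurable (Ψ j)
  bdd : ∀ j u, ‖Ψ j u‖ ≤ M
  supp : ∀ j u, u ∉ Set.Icc (-V) V → Ψ j u = 0

/-- `κ(w) = ∑_j ∫ conj(Ψ_j(u)) e_{z_j(u)}(w) v^{k/2} du` -/
noncomputable def kap {J : Type} [Fintype J] (k : ℕ) (β : J → ℝ) (Ψ : J → ℝ → ℂ) (w : ℍ) : ℂ :=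
  ∑ j, ∫ u : ℝ, starRingEnd ℂ (Ψ j u) * phf k (ez k (vz (β j) u)) w

/-- the average of `κ` over `SL₂(ℤ)` -/
noncomputable def Kap {J : Type} [Fintype J] (k : ℕ) (β : J → ℝ) (Ψ : J → ℝ → ℂ) (w : ℍ) : ℂ :=
  ∑' g : SL(2, ℤ), starRingEnd ℂ (jk k g w) * kap k β Ψ (g • w)

/-- the kernel sum `∑_{j,j'} ∫∫ |Ψ_j(u)| |Ψ_j'(u')| ∑_g cosh(d(g z_j(u), z_j'(u'))/2)^{-k}` -/
noncomputable def KS {J : Type} [Fintype J] (k : ℕ) (β : J → ℝ) (Ψ : J → ℝ → ℂ) : ℝ≥0∞ :=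
  ∑ j, ∑ j', ∫⁻ u : ℝ, ∫⁻ u' : ℝ, ‖Ψ j u‖ₑ * ‖Ψ j' u'‖ₑ *
    ∑' g : SL(2, ℤ), ENNReal.ofReal (ch (g • vz (β j) u) (vz (β j') u') ^ (-(k : ℝ) / 2))

/-- `X = aβ + b - β'(cβ + d)` -/
noncomputable def gX (g : SL(2, ℤ)) (β β' : ℝ) : ℝ :=
  (g 0 0 : ℤ) * β + (g 0 1 : ℤ) - β' * ((g 1 0 : ℤ) * β + (g 1 1 : ℤ))

/-- `p = a - β' c` -/
noncomputable def gp (g : SL(2, ℤ)) (β' : ℝ) : ℝ := (g 0 0 : ℤ) - β' * (g 1 0 : ℤ)

/-- `q = c β + d` -/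
noncomputable def gq (g : SL(2, ℤ)) (β : ℝ) : ℝ := (g 1 0 : ℤ) * β + (g 1 1 : ℤ)

/-- `g` maps the geodesic over `β` to the geodesic over `β'` with the same orientation -/
def MainI (β β' : ℝ) (g : SL(2, ℤ)) : Prop := g 1 0 = 0 ∧ gX g β β' = 0

/-- `g` maps the geodesic over `β` to the geodesic over `β'` with the reversed orientation -/
def MainR (β β' : ℝ) (g : SL(2, ℤ)) : Prop := gp g β' = 0 ∧ gq g β = 0

/-- `ρ_n = ∫_1^∞ y^{k-2} e^{-4π n y} dy` -/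
noncomputable def rho (k n : ℕ) : ℝ :=
  ∫ y in Set.Ioi (1 : ℝ), y ^ (k - 2) * Real.exp (-4 * Real.pi * n * y)

/-- `e^{ku/2 - 2π n e^u}` -/
noncomputable def gd (k n : ℕ) (u : ℝ) : ℝ := Real.exp (k * u / 2 - 2 * Real.pi * n * Real.exp u)

/-- `g_k = Γ(k/2) (2π)^{-k/2}` -/
noncomputable def gk (k : ℕ) : ℝ := Real.Gamma ((k : ℝ) / 2) * (2 * Real.pi) ^ (-(k : ℝ) / 2)

/-- `Γ(k-1) / (4π)^{k-1}`: the harmonic weight of `f` is `omk k / ⟨f,f⟩` -/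
noncomputable def omk (k : ℕ) : ℝ := Real.Gamma ((k : ℝ) - 1) / (4 * Real.pi) ^ (k - 1)

/-- a smooth weight in `(α, β)` with integral `> 0` -/
structure WtW (α β : ℝ) where
  w : ℝ → ℝ
  cont : Continuous w
  cs : HasCompactSupport w
  nonneg : ∀ t, 0 ≤ w t
  supp : ∀ t, t ∉ Set.Ioo α β → w t = 0
  C : ℝ
  decay : ∀ u, ‖hatw w u‖ ≤ C / (1 + u ^ 2) ^ 2
  pos : 0 < ∫ t, w t

/-- the normalised eigenvalue `λ(r) = a(r) r^{-(k-1)/2}` -/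
noncomputable def lam (k : ℕ) (a : ℕ → ℝ) (r : ℕ) : ℝ := a r * (r : ℝ) ^ (-((k : ℝ) - 1) / 2)

/-- a system of Hecke eigenvalues at the primes of `S` -/
structure LamSys (S : Finset ℕ) (l : ℕ → ℝ) : Prop where
  one : l 1 = 1
  mul : ∀ m n : ℕ, m.Coprime n → l (m * n) = l m * l n
  hecke : ∀ p ∈ S, ∀ r : ℕ, l (p ^ (r + 2)) = l p * l (p ^ (r + 1)) - l (p ^ r)
  bd : ∀ p ∈ S, |l p| ≤ 21 / 10

/-- Chebyshev polynomials of the second kind: `U_j(2 cos θ) = sin((j+1)θ)/sin θ` -/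
noncomputable def Uc : ℕ → ℝ → ℝ
  | 0, _ => 1
  | 1, l => l
  | (j + 2), l => l * Uc (j + 1) l - Uc j l

/-- the Euler factor `1 - l p^{-1/2} z + z²/p` -/
noncomputable def Ef (p : ℕ) (l : ℝ) (z : ℂ) : ℂ :=
  1 - ((l * (p : ℝ) ^ (-(1 : ℝ) / 2) : ℝ) : ℂ) * z + z ^ 2 / p

/-- the phase `conj E / |E|` -/
noncomputable def phase (p : ℕ) (l : ℝ) (z : ℂ) : ℂ := starRingEnd ℂ (Ef p l z) / (‖Ef p l z‖ : ℂ)

/-- The approximation data: `V = conj x(B) ∑ c(n,r) x(n) l(r)`. -/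
structure Apx (S : Finset ℕ) (ε : ℝ) where
  B : ℕ
  Bpos : 0 < B
  ι : Finset (ℕ × ℕ)
  c : ℕ × ℕ → ℂ
  pos : ∀ p ∈ ι, 0 < p.1 ∧ 0 < p.2
  smooth : ∀ p ∈ ι, p.2.primeFactors ⊆ S
  approx : ∀ x : ℕ →* ℂ, (∀ p ∈ S, ‖x p‖ = 1) → ∀ l : ℕ → ℝ, LamSys S l →
    ‖starRingEnd ℂ (x B) * ∑ p ∈ ι, c p * x p.1 * (l p.2 : ℂ) - ∏ p ∈ S, phase p (l p) (x p)‖ ≤ ε
  l2 : ∀ t : ℝ, ∑ r ∈ ι.image Prod.snd, ‖∑ p ∈ ι.filter (fun p => p.2 = r),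
    c p * (p.1 : ℂ) ^ (-(t * Complex.I) : ℂ)‖ ^ 2 ≤ (1 + ε) ^ 2

/-- `R = ∏ r` over the index set; the modulus is `N = R m`. -/
noncomputable def Apx.R {S : Finset ℕ} {ε : ℝ} (A : Apx S ε) : ℕ := ∏ p ∈ A.ι, p.2

/-- Fourier coefficient modulo `N` of the indicator of `{a : r ∣ a, (a/r, m) = 1}` -/
noncomputable def theta (N m r b : ℕ) : ℂ :=
  (1 / (N : ℂ)) * ∑ a ∈ (Finset.range N).filter (fun a => r ∣ a ∧ (a / r).Coprime m),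
    cexp (-(2 * Real.pi * Complex.I) * a * b / N)

/-- the weight of the functional on the geodesic with abscissa `b/N` -/
noncomputable def Psi {S : Finset ℕ} {ε : ℝ} (A : Apx S ε) (w : ℝ → ℝ) (m b : ℕ) (u : ℝ) : ℂ :=
  ∑ p ∈ A.ι, A.c p * (Real.sqrt p.2 : ℂ) * theta (A.R * m) m p.2 b *
    hatw w (u + Real.log p.2 - Real.log p.1 + Real.log A.B)

/-- the functional `Y(b) = ∑_{b' mod N} ∫ Ψ_{b'}(u) f(b'/N + i e^u) e^{ku/2} du` -/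
noncomputable def Yf {S : Finset ℕ} {ε : ℝ} (A : Apx S ε) (w : ℝ → ℝ) (m k : ℕ) (b : ℕ → ℂ) : ℂ :=
  ∑ j : Fin (A.R * m), ∫ u : ℝ, Psi A w m j u * geo k b ((j : ℕ) / (A.R * m : ℕ)) u

/-- the density of the coefficients prime to `m`, for complex coefficients -/
noncomputable def dm (k : ℕ) (b : ℕ → ℂ) (m : ℕ) (u : ℝ) : ℂ :=
  (Real.exp (k * u / 2) : ℝ) *
    ∑' n : ℕ, (if n.Coprime m then b n else 0) * (Real.exp (-2 * Real.pi * n * Real.exp u) : ℝ)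

/-- a finite orthogonal family of eigenforms -/
structure Fam (k : ℕ) (ι : Type) where
  a : ι → ℕ → ℝ
  data : ∀ i, HData k (a i)
  orth : ∀ i j, i ≠ j →
    ∫ z in FD, qs (a i) z * starRingEnd ℂ (qs (a j) z) * ((z.im ^ k / z.im ^ 2 : ℝ) : ℂ) = 0

/-- the complex coefficients of a member of the family -/
def Fam.c {k : ℕ} {ι : Type} (F : Fam k ι) (i : ι) (n : ℕ) : ℂ := (F.a i n : ℂ)

/-- the harmonic weight -/
noncomputable def om (k : ℕ) (a : ℕ → ℝ) : ℝ := omk k / pn k (fun n => (a n : ℂ))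

/-- `Λ(k/2 + it, f)` has constant phase on `(α, β)` (it follows that there is no odd zero) -/
def Ph1 (k : ℕ) (a : ℕ → ℝ) (α β : ℝ) : Prop :=
  ∃ θ : ℂ, ‖θ‖ = 1 ∧ ∀ t ∈ Set.Ioo α β,
    (∫ u : ℝ, dens k a (1 : DirichletCharacter ℂ 1) u * cexp (t * u * Complex.I)) =
      θ * ‖(∫ u : ℝ, dens k a (1 : DirichletCharacter ℂ 1) u * cexp (t * u * Complex.I))‖

/-- a normalised Hecke eigenform of level `1` and weight `k` -/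
structure Eig {k : ℕ} (f : CuspForm 𝒮ℒ (k : ℤ)) : Prop where
  one : (UpperHalfPlane.qExpansion 1 f).coeff 1 = 1
  mul : ∀ m n : ℕ, m.Coprime n → (UpperHalfPlane.qExpansion 1 f).coeff (m * n) =
    (UpperHalfPlane.qExpansion 1 f).coeff m * (UpperHalfPlane.qExpansion 1 f).coeff n
  hecke : ∀ p r : ℕ, p.Prime → (UpperHalfPlane.qExpansion 1 f).coeff (p ^ (r + 2)) =
    (UpperHalfPlane.qExpansion 1 f).coeff p * (UpperHalfPlane.qExpansion 1 f).coeff (p ^ (r + 1)) -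
      (p : ℂ) ^ (k - 1) * (UpperHalfPlane.qExpansion 1 f).coeff (p ^ r)

/-- the Fourier coefficients of a cusp form -/
noncomputable def co {k : ℕ} (f : CuspForm 𝒮ℒ (k : ℤ)) (n : ℕ) : ℂ :=
  (UpperHalfPlane.qExpansion 1 f).coeff n

/-- the Petersson inner product (antilinear in the first variable) -/
noncomputable def pet {k : ℕ} (f g : CuspForm 𝒮ℒ (k : ℤ)) : ℂ :=
  ∫ z in FD, starRingEnd ℂ (qc (co f) z) * qc (co g) z * ((z.im ^ k / z.im ^ 2 : ℝ) : ℂ)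

/-- `T` acts on the coefficients as the Hecke operator `T_p` -/
def IsHecke {k : ℕ} (p : ℕ) (T : CuspForm 𝒮ℒ (k : ℤ) →ₗ[ℂ] CuspForm 𝒮ℒ (k : ℤ)) : Prop :=
  ∀ (f : CuspForm 𝒮ℒ (k : ℤ)) (n : ℕ),
    co (T f) n = co f (p * n) + (if p ∣ n then (p : ℂ) ^ (k - 1) * co f (n / p) else 0)

/-- `Q_n = P(Gamma(k-1) > 2π n)` -/
noncomputable def Qk (k n : ℕ) : ℝ :=
  (∫ t in Set.Ioi (2 * Real.pi * n), t ^ (k - 2) * Real.exp (-t)) / Real.Gamma ((k : ℝ) - 1)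

/-- `R_l = ∑_{d ≥ 1} Q_{dl}` -/
noncomputable def Rl (k l : ℕ) : ℝ := ∑' d : ℕ, Qk k ((d + 1) * l)

end Pool.Agent.WA
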